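import Mathlib

namespace Pool.Agent.H.MP_793ea6_al

/-- adding a power of two at a zero bit is xor -/
theorem xor_eq_add (j y : ℕ) (h : y.testBit j = false) : y ^^^ 2 ^ j = 2 ^ j + y := by
  induction j generalizing y with
  | zero =>
    have h0 : y % 2 = 0 := by
      rw [Nat.testBit_zero] at h
      have : ¬ (y % 2 = 1) := by simpa using h
      omega
    apply Nat.eq_of_testBit_eq
    intro i
    cases i with
    | zero => simp [Nat.testBit_zero, h0, Nat.add_mod]
    | succ i =>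
      rw [Nat.testBit_xor, Nat.testBit_succ, Nat.testBit_succ, Nat.testBit_succ]
      have : (2 ^ 0 + y) / 2 = y / 2 := by omega
      rw [this]; simp
  | succ j ih =>
    have h1 : (y / 2).testBit j = false := by rw [← Nat.testBit_succ]; exact h
    have h2 := ih (y / 2) h1
    apply Nat.eq_of_testBit_eq
    intro i
    cases i with
    | zero =>
      rw [Nat.testBit_xor, Nat.testBit_zero, Nat.testBit_zero, Nat.testBit_zero]
      have : (2 ^ (j+1) + y) % 2 = y % 2 := by rw [pow_succ]; omega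
      rw [this]
      have : 2 ^ (j+1) % 2 = 0 := by rw [pow_succ]; omega
      simp [this]
    | succ i =>
      have e : (2 ^ (j+1) + y) / 2 = 2 ^ j + y / 2 := by rw [pow_succ]; omega
      have e2 : 2 ^ (j+1) / 2 = 2 ^ j := by rw [pow_succ]; omega
      rw [Nat.testBit_xor, Nat.testBit_succ, Nat.testBit_succ, Nat.testBit_succ, e, e2, ← h2,
        Nat.testBit_xor]

def mk (j : ℕ) : ℕ → ℕ := fun d =>
  Nat.rec (motive := fun _ => ℕ) (2 ^ (2 ^ j) - 1) (fun d r => r ||| (r <<< (2 ^ (j + 1 + d)))) d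

theorem mk_spec (j d x : ℕ) :
    (mk j d).testBit x = (decide (x < 2 ^ (j + 1 + d)) && !x.testBit j) := by
  induction d generalizing x with
  | zero =>
    show (2 ^ (2 ^ j) - 1).testBit x = _
    rw [Nat.testBit_two_pow_sub_one]
    by_cases h : x < 2 ^ j
    · have : x < 2 ^ (j + 1 + 0) := by rw [add_zero, pow_succ]; omega
      simp [h, this, Nat.testBit_lt_two_pow h]
    · by_cases h2 : x < 2 ^ (j + 1 + 0)
      · have hx : x = 2 ^ j + (x - 2 ^ j) := by omega
        have h3 : x - 2 ^ j < 2 ^ j := by rw [add_zero, pow_succ] at h2; omega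
        have : x.testBit j = true := by
          rw [hx, Nat.testBit_two_pow_add_eq, Nat.testBit_lt_two_pow h3]; rfl
        simp [h, this]
      · simp only [h, h2]; simp
  | succ d ih =>
    show (mk j d ||| (mk j d <<< (2 ^ (j + 1 + d)))).testBit x = _
    rw [Nat.testBit_or, Nat.testBit_shiftLeft, ih, ih]
    have hp : 2 ^ (j + 1 + (d + 1)) = 2 ^ (j + 1 + d) * 2 := by rw [← add_assoc, pow_succ]
    by_cases h : x < 2 ^ (j + 1 + d)
    · have h1 : x < 2 ^ (j + 1 + (d + 1)) := by omega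
      have h2 : ¬ (x ≥ 2 ^ (j + 1 + d)) := by omega
      simp [h, h1, h2]
    · have h2 : x ≥ 2 ^ (j + 1 + d) := by omega
      have hx : x = 2 ^ (j + 1 + d) + (x - 2 ^ (j + 1 + d)) := by omega
      have h3 : x.testBit j = (x - 2 ^ (j + 1 + d)).testBit j := by
        conv_lhs => rw [hx]
        exact Nat.testBit_two_pow_add_gt (by omega) _
      have h4 : (x - 2 ^ (j + 1 + d) < 2 ^ (j + 1 + d)) ↔ x < 2 ^ (j + 1 + (d + 1)) := by omega
      simp only [h, h2, h3, h4]; simp

def msk (J j : ℕ) : ℕ := mk j (J - 1 - j)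

theorem msk_spec {J j x : ℕ} (hj : j < J) (hx : x < 2 ^ J) :
    (msk J j).testBit x = !x.testBit j := by
  unfold msk
  rw [mk_spec]
  have : j + 1 + (J - 1 - j) = J := by omega
  simp [this, hx]

def T (J j M : ℕ) : ℕ := ((M &&& msk J j) <<< (2 ^ j)) ||| ((M >>> (2 ^ j)) &&& msk J j)

theorem T_spec {J j x : ℕ} (M : ℕ) (hj : j < J) (hx : x < 2 ^ J) :
    (T J j M).testBit x = M.testBit (x ^^^ 2 ^ j) := by
  unfold T
  rw [Nat.testBit_or, Nat.testBit_shiftLeft, Nat.testBit_and, Nat.testBit_and,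
    Nat.testBit_shiftRight, msk_spec hj hx, msk_spec hj (lt_of_le_of_lt (Nat.sub_le _ _) hx)]
  by_cases hge : x ≥ 2 ^ j
  · have hx' : x = 2 ^ j + (x - 2 ^ j) := by omega
    have h1 : x.testBit j = !(x - 2 ^ j).testBit j := by
      conv_lhs => rw [hx']
      exact Nat.testBit_two_pow_add_eq _ _
    cases hb : (x - 2 ^ j).testBit j
    · have h2 := xor_eq_add j _ hb
      have h3 : x ^^^ 2 ^ j = x - 2 ^ j := by
        conv_lhs => rw [hx', ← h2]
        rw [Nat.xor_assoc, Nat.xor_self, Nat.xor_zero]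
      rw [hb] at h1
      simp [h1, h3, hge]
    · rw [hb] at h1
      have h2 := xor_eq_add j x (by simpa using h1)
      simp [h1, h2]
  · have hlt : x < 2 ^ j := by omega
    have hb := Nat.testBit_lt_two_pow hlt
    simp [hge, hb, xor_eq_add j x hb]

theorem split (j P : ℕ) (F : ℕ → Prop) :
    (∃ p < 2 ^ (j + 1), P.testBit p = true ∧ F p) ↔
      (∃ p < 2 ^ j, (P % 2 ^ (2 ^ j)).testBit p = true ∧ F p) ∨
      (∃ p < 2 ^ j, (P >>> (2 ^ j)).testBit p = true ∧ F (p ^^^ 2 ^ j)) := by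
  constructor
  · rintro ⟨p, hp, h1, h2⟩
    by_cases h : p < 2 ^ j
    · left; exact ⟨p, h, by simp [h, h1], h2⟩
    · right
      have h3 : p - 2 ^ j < 2 ^ j := by rw [pow_succ] at hp; omega
      have e : 2 ^ j + (p - 2 ^ j) = p := by omega
      refine ⟨p - 2 ^ j, h3, by rw [Nat.testBit_shiftRight, e]; exact h1, ?_⟩
      rw [xor_eq_add j _ (Nat.testBit_lt_two_pow h3), e]; exact h2
  · rintro (⟨p, hp, h1, h2⟩ | ⟨p, hp, h1, h2⟩)
    · refine ⟨p, by rw [pow_succ]; omega, ?_, h2⟩
      simpa [hp] using h1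
    · refine ⟨2 ^ j + p, by rw [pow_succ]; omega, ?_, ?_⟩
      · rwa [Nat.testBit_shiftRight] at h1
      · rwa [xor_eq_add j _ (Nat.testBit_lt_two_pow hp)] at h2

def goI (J j : ℕ) : ℕ → ℕ → ℕ :=
  Nat.rec (motive := fun _ => ℕ → ℕ → ℕ) (fun P Q => cond (Nat.beq (P % 2) 1) Q 0)
    (fun j r P Q => cond (Nat.beq P 0) 0
      (r (P % 2 ^ (2 ^ j)) Q ||| r (P >>> (2 ^ j)) (T J j Q))) j

theorem goI_spec {J : ℕ} (j : ℕ) (hj : j ≤ J) (P Q x : ℕ) (hx : x < 2 ^ J) :
    (goI J j P Q).testBit x = true ↔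
      ∃ p < 2 ^ j, P.testBit p = true ∧ Q.testBit (x ^^^ p) = true := by
  induction j generalizing P Q with
  | zero =>
    show (cond (Nat.beq (P % 2) 1) Q 0).testBit x = true ↔ _
    cases h : Nat.beq (P % 2) 1
    · have : ¬ P % 2 = 1 := Nat.ne_of_beq_eq_false h
      simp [Nat.testBit_zero, this]
    · have : P % 2 = 1 := Nat.eq_of_beq_eq_true h
      simp [Nat.testBit_zero, this]
  | succ j ih =>
    show (cond (Nat.beq P 0) 0
      (goI J j (P % 2 ^ (2 ^ j)) Q ||| goI J j (P >>> (2 ^ j)) (T J j Q))).testBit x = true ↔ _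
    cases h : Nat.beq P 0
    · rw [split, cond_false, Nat.testBit_or, Bool.or_eq_true, ih (by omega), ih (by omega)]
      apply or_congr Iff.rfl
      apply exists_congr; intro p
      apply and_congr_right; intro hp
      apply and_congr_right; intro _
      rw [T_spec _ (by omega) (Nat.xor_lt_two_pow hx
        (lt_of_lt_of_le hp (Nat.pow_le_pow_right (by norm_num) (by omega)))), Nat.xor_assoc]
    · have : P = 0 := Nat.eq_of_beq_eq_true h
      simp [this]

def goO (J a d : ℕ) : ℕ → ℕ → ℕ :=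
  Nat.rec (motive := fun _ => ℕ → ℕ → ℕ) (fun P Q => goI J a P Q)
    (fun d r P Q => cond (Nat.beq P 0) 0
      (r (P % 2 ^ (2 ^ (a + d))) Q ||| T J (a + d) (r (P >>> (2 ^ (a + d))) Q))) d

theorem goO_spec {J a : ℕ} (d : ℕ) (hd : a + d ≤ J) (P Q x : ℕ) (hx : x < 2 ^ J) :
    (goO J a d P Q).testBit x = true ↔
      ∃ p < 2 ^ (a + d), P.testBit p = true ∧ Q.testBit (x ^^^ p) = true := by
  induction d generalizing P x with
  | zero => exact goI_spec a hd P Q x hx
  | succ d ih =>
    show (cond (Nat.beq P 0) 0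
      (goO J a d (P % 2 ^ (2 ^ (a + d))) Q |||
        T J (a + d) (goO J a d (P >>> (2 ^ (a + d))) Q))).testBit x = true ↔ _
    cases h : Nat.beq P 0
    · rw [← add_assoc, split, cond_false, Nat.testBit_or, Bool.or_eq_true, ih (by omega) _ _ hx,
        T_spec _ (by omega) hx, ih (by omega) _ _ (Nat.xor_lt_two_pow hx
          (Nat.pow_lt_pow_right (by norm_num) (by omega)))]
      apply or_congr Iff.rfl
      apply exists_congr; intro p
      rw [Nat.xor_assoc, Nat.xor_comm (2 ^ (a + d)) p]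
    · have : P = 0 := Nat.eq_of_beq_eq_true h
      simp [this]

end Pool.Agent.H.MP_793ea6_al
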