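import Pool.Agent.H.MP_793ea6_al.A
import Pool.Agent.H.MP_793ea6_al.D

namespace Pool.Agent.H.MP_793ea6_al

def sm (P Q : ℕ) : ℕ := goO 17 9 8 P Q
def nz : ℕ := 2 ^ (2 ^ 17) - 2
def dS : ℕ := dB ||| dC
def dA : ℕ := nz ^^^ dS
def dAB : ℕ := dA ||| dB
def sub (X Y : ℕ) : Bool := Nat.beq (X &&& Y) X
def top (X : ℕ) : ℕ := (X >>> 129024) <<< 129024

theorem k0 : Nat.beq (dB &&& dC) 0 = true := by decide +kernel
theorem k1 : sub dS nz = true := by decide +kernel
theorem kCS : Nat.beq (sm dC dS &&& dS) 0 = true := by decide +kernel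
theorem kBB : sub dAB (sm dB dB) = true := by decide +kernel
theorem kBC : sub dA (sm dB dC) = true := by decide +kernel
theorem kCC : sub dA (sm dC dC) = true := by decide +kernel
theorem kAA : sub nz (sm (top dA) dA) = true := by decide +kernel
theorem kBA : sub nz (sm (top dB) dA) = true := by decide +kernel
theorem kCA : sub nz (sm (top dC) dA) = true := by decide +kernel

end Pool.Agent.H.MP_793ea6_al
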