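import Pool.Agent.H.MP_793ea6_al.K

namespace Pool.Agent.H.MP_793ea6_al

theorem sm_spec (P Q x : ℕ) (hx : x < 2 ^ 17) :
    (sm P Q).testBit x = true ↔
      ∃ p < 2 ^ 17, P.testBit p = true ∧ Q.testBit (x ^^^ p) = true :=
  goO_spec (J := 17) (a := 9) 8 (by norm_num) P Q x hx

theorem sub_spec {X Y : ℕ} (h : sub X Y = true) (x : ℕ) (hx : X.testBit x = true) :
    Y.testBit x = true := by
  have h1 : X &&& Y = X := Nat.eq_of_beq_eq_true h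
  rw [← h1, Nat.testBit_and, Bool.and_eq_true] at hx
  exact hx.2

theorem disj_spec {X Y : ℕ} (h : Nat.beq (X &&& Y) 0 = true) (x : ℕ) (hx : X.testBit x = true)
    (hy : Y.testBit x = true) : False := by
  have h1 : X &&& Y = 0 := Nat.eq_of_beq_eq_true h
  have : (X &&& Y).testBit x = true := by rw [Nat.testBit_and, hx, hy]; rfl
  rw [h1] at this; simp at this

theorem top_spec (X x : ℕ) (h : (top X).testBit x = true) : X.testBit x = true := by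
  unfold top at h
  rw [Nat.testBit_shiftLeft, Bool.and_eq_true, Nat.testBit_shiftRight] at h
  have h1 : x ≥ 129024 := by simpa using h.1
  have : 129024 + (x - 129024) = x := by omega
  rw [this] at h; exact h.2

theorem nz_aux (n x : ℕ) (hn : 0 < n) : (2 ^ n - 2).testBit x = (decide (x < n) && decide (x ≠ 0)) := by
  have h0 : (2 ^ n - 2).testBit 0 = false := by
    obtain ⟨m, rfl⟩ : ∃ m, n = m + 1 := ⟨n - 1, by omega⟩
    rw [Nat.testBit_zero, pow_succ]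
    have : (2 ^ m * 2 - 2) % 2 = 0 := by omega
    simp [this]
  have h1 := xor_eq_add 0 _ h0
  have h2 : 2 ^ 0 + (2 ^ n - 2) = 2 ^ n - 1 := by
    have : 2 ^ 1 ≤ 2 ^ n := Nat.pow_le_pow_right (by norm_num) hn
    omega
  rw [h2] at h1
  have h3 : 2 ^ n - 2 = (2 ^ n - 1) ^^^ 2 ^ 0 := by
    rw [← h1, Nat.xor_assoc, Nat.xor_self, Nat.xor_zero]
  rw [h3, Nat.testBit_xor, Nat.testBit_two_pow_sub_one, Nat.testBit_two_pow]
  by_cases hx : x = 0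
  · subst hx; simp [hn]
  · have : ¬ 0 = x := fun h => hx h.symm
    simp [hx, this]

theorem nz_spec (x : ℕ) : nz.testBit x = true ↔ x < 2 ^ 17 ∧ x ≠ 0 := by
  unfold nz
  rw [nz_aux _ _ (by norm_num)]
  simp only [Bool.and_eq_true, decide_eq_true_eq]

def cl (x : ℕ) : Fin 3 := if dB.testBit x = true then 1 else if dC.testBit x = true then 2 else 0

def In (c : Fin 3) (x : ℕ) : Prop := x ≠ 0 ∧ cl x = c

theorem S_nz {x : ℕ} (h : dS.testBit x = true) : x ≠ 0 :=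
  ((nz_spec x).1 (sub_spec k1 x h)).2

theorem S_iff (x : ℕ) : dS.testBit x = true ↔ dB.testBit x = true ∨ dC.testBit x = true := by
  unfold dS; rw [Nat.testBit_or, Bool.or_eq_true]

theorem inB (x : ℕ) : dB.testBit x = true ↔ In 1 x := by
  constructor
  · intro h
    exact ⟨S_nz ((S_iff x).2 (Or.inl h)), by simp [cl, h]⟩
  · rintro ⟨-, h⟩
    by_contra h1
    unfold cl at h
    rw [if_neg h1] at h
    split_ifs at h <;> exact absurd h (by decide)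

theorem inC (x : ℕ) : dC.testBit x = true ↔ In 2 x := by
  constructor
  · intro h
    have h1 : ¬ dB.testBit x = true := fun h1 => disj_spec k0 x h1 h
    exact ⟨S_nz ((S_iff x).2 (Or.inr h)), by unfold cl; rw [if_neg h1, if_pos h]⟩
  · rintro ⟨-, h⟩
    by_contra h1
    unfold cl at h
    rw [if_neg h1] at h
    split_ifs at h <;> exact absurd h (by decide)

theorem inA (x : ℕ) (hx : x < 2 ^ 17) : dA.testBit x = true ↔ In 0 x := by
  unfold dA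
  rw [Nat.testBit_xor]
  constructor
  · intro h
    by_cases hs : dS.testBit x = true
    · rw [hs, sub_spec k1 x hs] at h; simp at h
    · have h1 : nz.testBit x = true := by simpa [hs] using h
      rw [S_iff, not_or] at hs
      exact ⟨((nz_spec x).1 h1).2, by unfold cl; rw [if_neg hs.1, if_neg hs.2]⟩
  · rintro ⟨h0, h⟩
    have hs : ¬ dS.testBit x = true := by
      rw [S_iff, inB, inC]
      rintro (h1 | h1)
      · exact absurd (h.symm.trans h1.2) (by decide)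
      · exact absurd (h.symm.trans h1.2) (by decide)
    rw [(nz_spec x).2 ⟨hx, h0⟩]
    simpa using hs

def W (y z : Fin 3) (x : ℕ) : Prop := ∃ p < 2 ^ 17, In y p ∧ In z (x ^^^ p)

theorem W.swap {y z : Fin 3} {x : ℕ} (hx : x < 2 ^ 17) (h : W y z x) : W z y x := by
  obtain ⟨p, hp, h1, h2⟩ := h
  refine ⟨x ^^^ p, Nat.xor_lt_two_pow hx hp, h2, ?_⟩
  rwa [← Nat.xor_assoc, Nat.xor_self, Nat.zero_xor]

theorem wA (y : Fin 3) {x : ℕ} (hx : x < 2 ^ 17) (h0 : x ≠ 0) : W y 0 x := by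
  have hn := (nz_spec x).2 ⟨hx, h0⟩
  fin_cases y
  · obtain ⟨p, hp, h1, h2⟩ := (sm_spec _ _ x hx).1 (sub_spec kAA x hn)
    exact ⟨p, hp, (inA p hp).1 (top_spec _ _ h1), (inA _ (Nat.xor_lt_two_pow hx hp)).1 h2⟩
  · obtain ⟨p, hp, h1, h2⟩ := (sm_spec _ _ x hx).1 (sub_spec kBA x hn)
    exact ⟨p, hp, (inB p).1 (top_spec _ _ h1), (inA _ (Nat.xor_lt_two_pow hx hp)).1 h2⟩
  · obtain ⟨p, hp, h1, h2⟩ := (sm_spec _ _ x hx).1 (sub_spec kCA x hn)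
    exact ⟨p, hp, (inC p).1 (top_spec _ _ h1), (inA _ (Nat.xor_lt_two_pow hx hp)).1 h2⟩

theorem wBB {x : ℕ} (hx : x < 2 ^ 17) (h : In 0 x ∨ In 1 x) : W 1 1 x := by
  have hn : dAB.testBit x = true := by
    unfold dAB; rw [Nat.testBit_or, Bool.or_eq_true, inA x hx, inB]; exact h
  obtain ⟨p, hp, h1, h2⟩ := (sm_spec _ _ x hx).1 (sub_spec kBB x hn)
  exact ⟨p, hp, (inB p).1 h1, (inB _).1 h2⟩

theorem wBC {x : ℕ} (hx : x < 2 ^ 17) (h : In 0 x) : W 1 2 x := by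
  obtain ⟨p, hp, h1, h2⟩ := (sm_spec _ _ x hx).1 (sub_spec kBC x ((inA x hx).2 h))
  exact ⟨p, hp, (inB p).1 h1, (inC _).1 h2⟩

theorem wCC {x : ℕ} (hx : x < 2 ^ 17) (h : In 0 x) : W 2 2 x := by
  obtain ⟨p, hp, h1, h2⟩ := (sm_spec _ _ x hx).1 (sub_spec kCC x ((inA x hx).2 h))
  exact ⟨p, hp, (inC p).1 h1, (inC _).1 h2⟩

theorem noTri {x p : ℕ} (hx : x < 2 ^ 17) (hp : p < 2 ^ 17) (h1 : In 2 p)
    (h2 : In 1 (x ^^^ p) ∨ In 2 (x ^^^ p)) (h3 : In 1 x ∨ In 2 x) : False := by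
  rw [← inB, ← inC, ← S_iff] at h2 h3
  exact disj_spec kCS x ((sm_spec _ _ x hx).2 ⟨p, hp, (inC p).2 h1, h2⟩) h3

theorem xne {u v : ℕ} (h : u ≠ v) : u ^^^ v ≠ 0 := fun h1 => h (Nat.eq_of_xor_eq_zero h1)

theorem noTri' {u v w : ℕ} (hu : u < 2 ^ 17) (hv : v < 2 ^ 17) (hw : w < 2 ^ 17)
    (huv : u ≠ v) (hvw : v ≠ w) (huw : u ≠ w) (h1 : cl (u ^^^ v) = 2)
    (h2 : cl (v ^^^ w) ≠ 0) (h3 : cl (u ^^^ w) ≠ 0) : False := by
  have e : (u ^^^ w) ^^^ (u ^^^ v) = v ^^^ w := by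
    rw [Nat.xor_comm u w, Nat.xor_assoc, ← Nat.xor_assoc u u, Nat.xor_self, Nat.zero_xor,
      Nat.xor_comm]
  have f : ∀ c : Fin 3, c ≠ 0 → c = 1 ∨ c = 2 := by decide
  refine noTri (Nat.xor_lt_two_pow hu hw) (Nat.xor_lt_two_pow hu hv) ⟨xne huv, h1⟩ ?_ ?_
  · rw [e]; exact (f _ h2).imp (fun h => ⟨xne hvw, h⟩) (fun h => ⟨xne hvw, h⟩)
  · exact (f _ h3).imp (fun h => ⟨xne huw, h⟩) (fun h => ⟨xne huw, h⟩)

theorem allW {x : ℕ} (hx : x < 2 ^ 17) (h0 : x ≠ 0) (y z : Fin 3)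
    (h : y = 0 ∨ z = 0 ∨ cl x = 0 ∨ (cl x = 1 ∧ y = 1 ∧ z = 1)) : W y z x := by
  by_cases hz : z = 0
  · subst hz; exact wA y hx h0
  by_cases hy : y = 0
  · subst hy; exact (wA z hx h0).swap hx
  have f : ∀ c : Fin 3, c ≠ 0 → c = 1 ∨ c = 2 := by decide
  rcases h with h | h | h | ⟨h1, rfl, rfl⟩
  · exact absurd h hy
  · exact absurd h hz
  · rcases f _ hy with rfl | rfl <;> rcases f _ hz with rfl | rfl
    · exact wBB hx (Or.inl ⟨h0, h⟩)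
    · exact wBC hx ⟨h0, h⟩
    · exact (wBC hx ⟨h0, h⟩).swap hx
    · exact wCC hx ⟨h0, h⟩
  · exact wBB hx (Or.inr ⟨h0, h1⟩)

theorem main (F : Fin 3 → Fin 3 → Fin 3 → Prop)
    (hF : ∀ x y z, F x y z ↔ (x ≠ 0 ∧ y ≠ 0 ∧ z ≠ 0 ∧ (x = 2 ∨ y = 2 ∨ z = 2))) :
    ∃ (n : ℕ) (col : Fin n → Fin n → Fin 3), 2 ≤ n ∧ (∀ u v, col u v = col v u) ∧
      (∀ u v w, u ≠ v → v ≠ w → u ≠ w → ¬ F (col u v) (col v w) (col u w)) ∧
      (∀ u v, u ≠ v → ∀ y z, ¬ F (col u v) y z →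
        ∃ w, w ≠ u ∧ w ≠ v ∧ col u w = y ∧ col w v = z) := by
  refine ⟨2 ^ 17, fun u v => cl (u.1 ^^^ v.1), by norm_num, fun u v => congrArg cl (Nat.xor_comm _ _), ?_, ?_⟩
  · intro u v w huv hvw huw h
    rw [hF] at h
    obtain ⟨h1, h2, h3, h4⟩ := h
    have huv' : u.1 ≠ v.1 := fun h => huv (Fin.ext h)
    have hvw' : v.1 ≠ w.1 := fun h => hvw (Fin.ext h)
    have huw' : u.1 ≠ w.1 := fun h => huw (Fin.ext h)
    rcases h4 with h4 | h4 | h4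
    · exact noTri' u.2 v.2 w.2 huv' hvw' huw' h4 h2 h3
    · refine noTri' v.2 w.2 u.2 hvw' huw'.symm huv'.symm h4 ?_ ?_
      · rwa [Nat.xor_comm]
      · rwa [Nat.xor_comm]
    · refine noTri' u.2 w.2 v.2 huw' hvw'.symm huv' h4 ?_ h1
      rwa [Nat.xor_comm]
  · intro u v huv y z h
    rw [hF] at h
    have huv' : u.1 ≠ v.1 := fun h => huv (Fin.ext h)
    have hx := Nat.xor_lt_two_pow u.2 v.2
    have f : ∀ c y z : Fin 3, ¬ (c ≠ 0 ∧ y ≠ 0 ∧ z ≠ 0 ∧ (c = 2 ∨ y = 2 ∨ z = 2)) →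
        (y = 0 ∨ z = 0 ∨ c = 0 ∨ (c = 1 ∧ y = 1 ∧ z = 1)) := by decide
    obtain ⟨p, hp, h1, h2⟩ := allW hx (xne huv') y z (f _ _ _ h)
    have e1 : u.1 ^^^ (u.1 ^^^ p) = p := by rw [← Nat.xor_assoc, Nat.xor_self, Nat.zero_xor]
    have e2 : (u.1 ^^^ p) ^^^ v.1 = (u.1 ^^^ v.1) ^^^ p := by
      rw [Nat.xor_assoc, Nat.xor_assoc, Nat.xor_comm p]
    refine ⟨⟨u.1 ^^^ p, Nat.xor_lt_two_pow u.2 hp⟩, ?_, ?_, ?_, ?_⟩
    · intro h3
      have h4 : u.1 ^^^ p = u.1 := congrArg Fin.val h3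
      rw [h4, Nat.xor_self] at e1
      exact h1.1 e1.symm
    · intro h3
      have h4 : u.1 ^^^ p = v.1 := congrArg Fin.val h3
      rw [h4, Nat.xor_self] at e2
      exact h2.1 e2.symm
    · show cl (u.1 ^^^ (u.1 ^^^ p)) = y
      rw [e1]; exact h1.2
    · show cl ((u.1 ^^^ p) ^^^ v.1) = z
      rw [e2]; exact h2.2

end Pool.Agent.H.MP_793ea6_al
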